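import Mathlib

namespace Pool.Agent.Results.MP_7e6923_gt.NotCechComplete

open Set Topology Filter

/-- The space `ω*` of free ultrafilters on `ℕ`, as a subspace of the space of all ultrafilters. -/
abbrev OmegaStar : Type := {u : Ultrafilter ℕ // (u : Filter ℕ) ≤ cofinite}

/-- Čech-completeness: the space is a `G_δ` in its Stone-Čech compactification. -/
def CechComplete (Z : Type) [TopologicalSpace Z] : Prop :=
  IsGδ (range (stoneCechUnit : Z → StoneCech Z))

instance : CompactSpace OmegaStar := by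
  have : {u : Ultrafilter ℕ | (u : Filter ℕ) ≤ cofinite} = ⋂ n : ℕ, {u | {n}ᶜ ∈ u} := by
    ext u
    simp only [mem_ofPred_eq, mem_iInter]
    constructor
    · intro h n
      exact h (by simp)
    · intro h s hs
      have h1 : s = ⋂ n ∈ sᶜ, ({n}ᶜ : Set ℕ) := by
        ext x
        simp only [mem_iInter, mem_compl_iff, mem_singleton_iff]
        constructor
        · rintro hx n hn rfl
          exact hn hx
        · intro hx
          by_contra hxs
          exact hx x hxs rfl
      have h2 : (sᶜ : Set ℕ).Finite := by simpa using hs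
      rw [h1]
      exact (biInter_mem h2).2 fun n _ => h n
  have h2 : IsClosed {u : Ultrafilter ℕ | (u : Filter ℕ) ≤ cofinite} := by
    rw [this]
    exact isClosed_iInter fun n => ultrafilter_isClosed_basic _
  exact isCompact_iff_compactSpace.1 h2.isCompact

/-- The clopen set of a subset of `ℕ`. -/
def cl (b : Set ℕ) : Set OmegaStar := {u | b ∈ u.1}

lemma isClopen_cl (b : Set ℕ) : IsClopen (cl b) :=
  ⟨(ultrafilter_isClosed_basic b).preimage continuous_subtype_val,
    (ultrafilter_isOpen_basic b).preimage continuous_subtype_val⟩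

/-- compact sets in open sets can be separated by clopen sets `cl b` -/
lemma exists_between {K U : Set OmegaStar} (hK : IsCompact K) (hU : IsOpen U) (hKU : K ⊆ U) :
    ∃ b : Set ℕ, K ⊆ cl b ∧ cl b ⊆ U := by
  have h1 : ∀ x ∈ K, ∃ b : Set ℕ, x ∈ cl b ∧ cl b ⊆ U := by
    intro x hx
    obtain ⟨O, hO, hOU⟩ := isOpen_induced_iff.1 hU
    have hxO : x.1 ∈ O := by
      have : x ∈ Subtype.val ⁻¹' O := by rw [hOU]; exact hKU hx
      exact this
    obtain ⟨_, ⟨b, rfl⟩, hxb, hbO⟩ :=
      ultrafilterBasis_is_basis.exists_subset_of_mem_open hxO hO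
    refine ⟨b, hxb, ?_⟩
    intro y hy
    rw [← hOU]
    exact hbO hy
  choose! b hxb hbU using h1
  obtain ⟨t, htK, ht⟩ := hK.elim_nhds_subcover (fun x => cl (b x))
    fun x hx => (isClopen_cl _).isOpen.mem_nhds (hxb x hx)
  refine ⟨⋃ x ∈ t, b x, ?_, ?_⟩
  · intro x hx
    obtain ⟨y, hy, hxy⟩ := mem_iUnion₂.1 (ht hx)
    exact mem_of_superset hxy (subset_biUnion_of_mem (u := fun x => b x) hy)
  · intro u hu
    have hu' : (⋃ x ∈ (t : Set OmegaStar), b x) ∈ u.1 := hu
    rw [Ultrafilter.finite_biUnion_mem_iff t.finite_toSet] at hu'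
    obtain ⟨y, hy, hyu⟩ := hu'
    exact hbU y (htK y hy) hyu

/-- neighbourhoods of the identity -/
lemma exists_finite_family {W : Set C(OmegaStar, OmegaStar)}
    (hW : W ∈ 𝓝 (ContinuousMap.id OmegaStar)) :
    ∃ A : Set (Set ℕ), A.Finite ∧ ∀ f : C(OmegaStar, OmegaStar),
      (∀ b ∈ A, MapsTo f (cl b) (cl b)) → f ∈ W := by
  have h1 : (⨅ b : Set ℕ, 𝓟 {f : C(OmegaStar, OmegaStar) | MapsTo f (cl b) (cl b)}) ≤
      𝓝 (ContinuousMap.id OmegaStar) := by
    rw [ContinuousMap.nhds_compactOpen]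
    refine le_iInf fun K => le_iInf fun hK => le_iInf fun U => le_iInf fun hU => le_iInf fun h => ?_
    obtain ⟨b, hKb, hbU⟩ := exists_between hK hU h
    refine (iInf_le _ b).trans ?_
    rw [principal_mono]
    intro f hf x hx
    exact hbU (hf (hKb hx))
  obtain ⟨t, ht, htW⟩ := (hasBasis_iInf_principal_finite _).mem_iff.1 (h1 hW)
  refine ⟨t, ht, fun f hf => htW ?_⟩
  exact mem_iInter₂.2 hf

/-- The map of `ω*` induced by a permutation. -/
def ind (σ : Equiv.Perm ℕ) : C(OmegaStar, OmegaStar) where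
  toFun u := ⟨u.1.map σ, by
    have h1 : Tendsto σ cofinite cofinite := σ.injective.tendsto_cofinite
    exact (map_mono u.2).trans h1⟩
  continuous_toFun := by
    refine Continuous.subtype_mk ?_ _
    refine ultrafilterBasis_is_basis.continuous_iff.2 ?_
    rintro _ ⟨s, rfl⟩
    exact (ultrafilter_isOpen_basic (σ ⁻¹' s)).preimage continuous_subtype_val

lemma mem_ind (σ : Equiv.Perm ℕ) (u : OmegaStar) (b : Set ℕ) :
    ind σ u ∈ cl b ↔ u ∈ cl (σ ⁻¹' b) := Iff.rfl

lemma mem_of_almost {u : OmegaStar} {b c : Set ℕ} (hb : u ∈ cl b) (h : (b \ c).Finite) :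
    u ∈ cl c := by
  have h1 : (b \ c)ᶜ ∈ u.1 := u.2 (by simpa using h)
  refine mem_of_superset (inter_mem hb h1) ?_
  rintro x ⟨h2, h3⟩
  by_contra h4
  exact h3 ⟨h2, h4⟩

/-- a set which is almost contained in or almost disjoint from all members of a countable
family -/
lemma exists_decider (A : Set (Set ℕ)) (hA : A.Countable) :
    ∃ φ : ℕ → ℕ, StrictMono φ ∧ ∀ b ∈ A, (range φ \ b).Finite ∨ (range φ ∩ b).Finite := by
  classical
  rcases A.eq_empty_or_nonempty with rfl | hne
  · exact ⟨id, strictMono_id, fun b hb => absurd hb (by simp)⟩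
  obtain ⟨e, he⟩ := hA.exists_eq_range hne
  let u : Ultrafilter ℕ := hyperfilter ℕ
  let c : ℕ → Set ℕ := fun n => if e n ∈ u then e n else (e n)ᶜ
  have hc : ∀ n, c n ∈ u := by
    intro n
    by_cases h : e n ∈ u
    · simp only [c, if_pos h]
      exact h
    · simp only [c, if_neg h]
      exact Ultrafilter.compl_mem_iff_notMem.2 h
  have h1 : ∀ n, ∃ᶠ k in atTop, ∀ m ≤ n, k ∈ c m := by
    intro n
    have h2 : (⋂ m ∈ Finset.range (n + 1), c m) ∈ u :=
      (biInter_finset_mem _).2 fun m _ => hc m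
    have h3 : (⋂ m ∈ Finset.range (n + 1), c m).Infinite := by
      intro hfin
      have h4 : (⋂ m ∈ Finset.range (n + 1), c m)ᶜ ∈ (u : Filter ℕ) := by
        refine hyperfilter_le_cofinite ?_
        simpa using hfin
      have h5 : (∅ : Set ℕ) ∈ u := by
        have := inter_mem h2 h4
        rwa [inter_compl_self] at this
      exact Ultrafilter.empty_notMem h5
    rw [Nat.frequently_atTop_iff_infinite]
    refine h3.mono ?_
    intro k hk m hm
    exact mem_iInter₂.1 hk m (Finset.mem_range.2 (by omega))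
  obtain ⟨φ, hφ, h2⟩ := extraction_forall_of_frequently h1
  refine ⟨φ, hφ, ?_⟩
  intro b hb
  rw [he] at hb
  obtain ⟨n, rfl⟩ := hb
  have h3 : (range φ \ c n).Finite := by
    refine ((finite_Iio n).image φ).subset ?_
    rintro _ ⟨⟨k, rfl⟩, hk⟩
    refine ⟨k, ?_, rfl⟩
    by_contra h4
    exact hk (h2 k n (not_lt.1 h4))
  by_cases h : e n ∈ u
  · left
    simpa only [c, if_pos h] using h3
  · right
    simp only [c, if_neg h] at h3
    simpa [Set.sdiff_eq] using h3

/-- Compact sets which contain all maps mapping countably many clopen sets to themselves do not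
exist. -/
lemma no_compact (K : Set C(OmegaStar, OmegaStar)) (hK : IsCompact K) (A : Set (Set ℕ))
    (hA : A.Countable)
    (hAK : ∀ f : C(OmegaStar, OmegaStar), (∀ b ∈ A, MapsTo f (cl b) (cl b)) → f ∈ K) : False := by
  classical
  obtain ⟨φ, hφ, hdec⟩ := exists_decider A hA
  let ι : ℕ × ℕ ↪ ℕ := ⟨fun p => φ (Nat.pair p.1 p.2), fun p q h => by
    have := hφ.injective h
    have h2 := Nat.pair_eq_pair.1 this
    exact Prod.ext h2.1 h2.2⟩
  let τ : ℕ → Equiv.Perm (ℕ × ℕ) := fun k => (Equiv.swap 0 k).prodCongr (Equiv.refl ℕ)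
  let σ : ℕ → Equiv.Perm ℕ := fun k => (τ k).viaEmbedding ι
  have hσ : ∀ k p, σ k (ι p) = ι (τ k p) := fun k p => Equiv.Perm.viaEmbedding_apply _ _ _
  have hσ' : ∀ k n, n ∉ range ι → σ k n = n := fun k n hn =>
    Equiv.Perm.viaEmbedding_apply_of_notMem _ _ _ hn
  have hι : range ι ⊆ range φ := by
    rintro _ ⟨p, rfl⟩
    exact ⟨_, rfl⟩
  -- the induced maps are in `K`
  have hin : ∀ k, ind (σ k) ∈ K := by
    intro k
    apply hAK
    intro b hb u hu
    rw [mem_ind]
    refine mem_of_almost hu ?_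
    rcases hdec b hb with h | h
    · refine (h.preimage (σ k).injective.injOn).subset ?_
      rintro n ⟨hn, hnσ⟩
      refine ⟨?_, hnσ⟩
      by_cases hnr : n ∈ range ι
      · obtain ⟨p, rfl⟩ := hnr
        rw [hσ]
        exact hι ⟨_, rfl⟩
      · exfalso
        apply hnσ
        change σ k n ∈ b
        rw [hσ' k n hnr]
        exact hn
    · refine h.subset ?_
      rintro n ⟨hn, hnσ⟩
      refine ⟨?_, hn⟩
      by_cases hnr : n ∈ range ι
      · exact hι hnr
      · exfalso
        apply hnσ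
        change σ k n ∈ b
        rw [hσ' k n hnr]
        exact hn
  -- the open partition
  let B : Set ℕ := ι '' {p | p.1 = 0}
  let O : Set OmegaStar → Set C(OmegaStar, OmegaStar) := fun P => {f | f ⁻¹' (cl B) = P}
  have hOopen : ∀ f : C(OmegaStar, OmegaStar), O (f ⁻¹' (cl B)) ∈ 𝓝 f := by
    intro f
    have h1 : IsClopen (f ⁻¹' (cl B)) := (isClopen_cl B).preimage f.continuous
    have h2 : {g : C(OmegaStar, OmegaStar) | MapsTo g (f ⁻¹' (cl B)) (cl B)} ∈ 𝓝 f :=
      (ContinuousMap.isOpen_setOfPred_mapsTo h1.isClosed.isCompact (isClopen_cl B).isOpen).mem_nhds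
        (fun x hx => hx)
    have h3 : {g : C(OmegaStar, OmegaStar) | MapsTo g (f ⁻¹' (cl B))ᶜ (cl B)ᶜ} ∈ 𝓝 f :=
      (ContinuousMap.isOpen_setOfPred_mapsTo h1.compl.isClosed.isCompact
        (isClopen_cl B).compl.isOpen).mem_nhds (fun x hx => hx)
    refine mem_of_superset (inter_mem h2 h3) ?_
    rintro g ⟨hg1, hg2⟩
    change g ⁻¹' (cl B) = f ⁻¹' (cl B)
    ext x
    constructor
    · intro hx
      by_contra hxf
      exact hg2 hxf hx
    · intro hx
      exact hg1 hx
  obtain ⟨t, -, ht⟩ := hK.elim_nhds_subcover (fun f => O (f ⁻¹' (cl B))) fun f _ => hOopen f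
  -- infinitely many of the maps are in different members
  have hpre : ∀ k, σ k ⁻¹' B = ι '' {p | p.1 = k} := by
    intro k
    ext n
    constructor
    · rintro ⟨p, hp, hpn⟩
      have hnr : n ∈ range ι := by
        by_contra hnr
        rw [hσ' k n hnr] at hpn
        exact hnr ⟨p, hpn⟩
      obtain ⟨q, rfl⟩ := hnr
      rw [hσ] at hpn
      have h1 : p = τ k q := ι.injective hpn
      refine ⟨q, ?_, rfl⟩
      have h2 : (τ k q).1 = Equiv.swap 0 k q.1 := rfl
      have h3 : Equiv.swap 0 k q.1 = 0 := by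
        rw [← h2, ← h1]
        exact hp
      change q.1 = k
      have h4 := congrArg (Equiv.swap 0 k) h3
      rwa [Equiv.swap_apply_self, Equiv.swap_apply_left] at h4
    · rintro ⟨p, hp, rfl⟩
      refine ⟨τ k p, ?_, (hσ k p).symm⟩
      change Equiv.swap 0 k p.1 = 0
      have hp' : p.1 = k := hp
      rw [hp', Equiv.swap_apply_right]
  have hdist : Function.Injective fun k => (ind (σ k)) ⁻¹' (cl B) := by
    intro k l hkl
    by_contra hne
    have hinf : (ι '' {p : ℕ × ℕ | p.1 = k}).Infinite := by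
      apply Set.Infinite.image ι.injective.injOn
      refine Set.infinite_of_injective_forall_mem (f := fun j : ℕ => ((k, j) : ℕ × ℕ)) ?_ ?_
      · intro i j hij
        exact (Prod.ext_iff.1 hij).2
      · intro j
        rfl
    obtain ⟨u, hu1, hu2⟩ : ∃ u : Ultrafilter ℕ, (u : Filter ℕ) ≤ cofinite ∧
        (ι '' {p : ℕ × ℕ | p.1 = k}) ∈ u := by
      have hne : (cofinite ⊓ 𝓟 (ι '' {p : ℕ × ℕ | p.1 = k})).NeBot :=
        cofinite_inf_principal_neBot_iff.2 hinf
      obtain ⟨u, hu⟩ := Ultrafilter.exists_le (cofinite ⊓ 𝓟 (ι '' {p : ℕ × ℕ | p.1 = k}))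
      exact ⟨u, hu.trans inf_le_left, le_principal_iff.1 (hu.trans inf_le_right)⟩
    have h1 : (⟨u, hu1⟩ : OmegaStar) ∈ (ind (σ k)) ⁻¹' (cl B) := by
      change (⟨u, hu1⟩ : OmegaStar) ∈ cl (σ k ⁻¹' B)
      rw [hpre]
      exact hu2
    have h2 : (⟨u, hu1⟩ : OmegaStar) ∈ (ind (σ l)) ⁻¹' (cl B) := by
      have : (fun k => (ind (σ k)) ⁻¹' (cl B)) k = (fun k => (ind (σ k)) ⁻¹' (cl B)) l := hkl
      change (ind (σ k)) ⁻¹' (cl B) = (ind (σ l)) ⁻¹' (cl B) at this
      rw [← this]
      exact h1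
    have h3 : (ι '' {p : ℕ × ℕ | p.1 = l}) ∈ u := by
      have : (⟨u, hu1⟩ : OmegaStar) ∈ cl (σ l ⁻¹' B) := h2
      rw [hpre] at this
      exact this
    have h4 : (∅ : Set ℕ) ∈ u := by
      refine mem_of_superset (inter_mem hu2 h3) ?_
      rintro _ ⟨⟨p, hp, rfl⟩, ⟨q, hq, hqp⟩⟩
      have := ι.injective hqp
      subst this
      exact (hne (hp.symm.trans hq)).elim
    exact Ultrafilter.empty_notMem h4
  -- a finite set of values
  have hfin : (range fun k => (ind (σ k)) ⁻¹' (cl B)).Finite := by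
    refine (t.finite_toSet.image fun f : C(OmegaStar, OmegaStar) => f ⁻¹' (cl B)).subset ?_
    rintro _ ⟨k, rfl⟩
    obtain ⟨f, hf, hkf⟩ := mem_iUnion₂.1 (ht (hin k))
    exact ⟨f, hf, (show (ind (σ k)) ⁻¹' (cl B) = f ⁻¹' (cl B) from hkf).symm⟩
  exact Set.infinite_range_of_injective hdist hfin

/-- The space of continuous maps `ω* → ω*` with the compact-open topology is not
Čech-complete. -/
theorem result : ¬ CechComplete C(OmegaStar, OmegaStar) := by
  intro h
  let _ : UniformSpace OmegaStar := uniformSpaceOfCompactR1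
  have : CompletelyRegularSpace C(OmegaStar, OmegaStar) := inferInstance
  obtain ⟨O, hO, hOr⟩ := isGδ_iff_eq_iInter_nat.1 h
  let η : C(OmegaStar, OmegaStar) → StoneCech C(OmegaStar, OmegaStar) := stoneCechUnit
  have hη : IsInducing η := isInducing_stoneCechUnit
  have hid : ∀ n, η (ContinuousMap.id OmegaStar) ∈ O n := by
    intro n
    have : η (ContinuousMap.id OmegaStar) ∈ ⋂ n, O n := by
      rw [← hOr]
      exact ⟨_, rfl⟩
    exact mem_iInter.1 this n
  have h1 : ∀ n, ∃ N ∈ 𝓝 (η (ContinuousMap.id OmegaStar)), IsClosed N ∧ N ⊆ O n := fun n =>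
    exists_mem_nhds_isClosed_subset ((hO n).mem_nhds (hid n))
  choose N hN hNc hNO using h1
  have hK' : IsCompact (⋂ n, N n) := (isClosed_iInter hNc).isCompact
  have hsub : (⋂ n, N n) ⊆ range η := by
    change _ ⊆ range stoneCechUnit
    rw [hOr]
    exact iInter_mono hNO
  have hK : IsCompact (η ⁻¹' (⋂ n, N n)) := hη.isCompact_preimage' hK' hsub
  have h2 : ∀ n, ∃ A : Set (Set ℕ), A.Finite ∧ ∀ f : C(OmegaStar, OmegaStar),
      (∀ b ∈ A, MapsTo f (cl b) (cl b)) → f ∈ η ⁻¹' (N n) := fun n =>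
    exists_finite_family (continuous_stoneCechUnit.continuousAt.preimage_mem_nhds (hN n))
  choose A hAfin hA using h2
  refine no_compact _ hK (⋃ n, A n) (countable_iUnion fun n => (hAfin n).countable) ?_
  intro f hf
  rw [preimage_iInter]
  exact mem_iInter.2 fun n => hA n f fun b hb => hf b (mem_iUnion.2 ⟨n, hb⟩)

end Pool.Agent.Results.MP_7e6923_gt.NotCechComplete
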