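import Pool.Agent.R583.CK.Normal

/-!
# `C_k(ω*, ω*)` is not normal

Fix a continuous map `r` from `ω*` onto `βω` and points `i_k` with `r(i_k) = k`. A sequence
`h : ω → ω*` gives the continuous map `ext h = βh ∘ r` with `ext h (i_k) = h k`, and basic
neighbourhoods of `ext h` are given by finitely many sets `A ⊆ ω`, through the traces
`{k : A ∈ h k}`. Let `(a_X)` be an independent family indexed by the branches `X ∈ 2 ^ ω`, and
consider the open cover of the space by the sets `U(X, Y)`, `X ≠ Y`, of the maps for which `a_X`
and `a_Y` have the same trace, and `U(X, X)` of the maps for which the trace of `a_X` is neither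
finite nor cofinite. With a second independent family `(c_q)` indexed by the members of the cover
the closed sets
`H1 = {Ψ : Ψ(i_0) ∈ c_q for all q}` and `H2 = {Ψ : Ψ(i_0) ∈ c_q implies Ψ ∉ U_q}` are disjoint. If
they had disjoint open neighbourhoods, a recursion of length `ω` (along an ultrafilter none of whose
elements decides infinitely many of the equations `a_X = a_Y`) would give a sequence `y` whose map
is not in any of the members of the cover met on the way, and a contradiction with the
neighbourhoods of the point given by `y`.
-/

set_option autoImplicit false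

open Pool.Agent.R583.CK

namespace Pool.Agent.Results.MP_7e6923_gt.NotNormal

/-- The space `C_k(ω*, ω*)` of the continuous self-maps of `ω*` with the compact-open topology is
not normal: there are two disjoint closed subsets of it without disjoint open neighbourhoods. -/
theorem result :
    ¬ NormalSpace C(OmegaStar, OmegaStar) ∧
    ∃ H₁ H₂ : Set C(OmegaStar, OmegaStar), IsClosed H₁ ∧ IsClosed H₂ ∧ Disjoint H₁ H₂ ∧
      ¬ ∃ O₁ O₂ : Set C(OmegaStar, OmegaStar),
        IsOpen O₁ ∧ IsOpen O₂ ∧ H₁ ⊆ O₁ ∧ H₂ ⊆ O₂ ∧ Disjoint O₁ O₂ := by
  refine ⟨not_normal, ?_⟩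
  by_contra hcon
  push Not at hcon
  exact not_normal ⟨fun s t hs ht hst => by
    obtain ⟨O₁, O₂, h1, h2, h3, h4, h5⟩ := hcon s t hs ht hst
    exact ⟨O₁, O₂, h1, h2, h3, h4, h5⟩⟩

end Pool.Agent.Results.MP_7e6923_gt.NotNormal
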